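import Pool.Agent.Q184.TS.SH

/-!
# 3SUM in the form `a + b = c`: nondeterministic machines which verify the absence of solutions

3SUM has short proofs of negative answers: Carmosino, Gao, Impagliazzo, Mihajlin, Paturi and
Schneider gave a nondeterministic algorithm of time `N ^ (3 / 2 + o(1))` which accepts exactly the
lists without a solution.  Here is a lower bound for such nondeterministic algorithms in a restricted
model.  The list of `N` distinct integers of absolute value at most `N ^ 3` is given as a word of
`n = N (w + 1)` bits.  Nonuniform nondeterministic programs with `k` two-way heads, which move by at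
most one position in a step, with at most `2 ^ S` configurations, which accept within `T` steps the
lists in which no integer is the sum of two others and never accept another list, satisfy
`(k T + n) ^ 2 * k * (S + 1) * (w + 1) ≥ n ^ 3 / 26000`.  So with space `N ^ o(1)` and a bounded
number of heads they need time `N ^ (3 / 2 - o(1))`, and with space `N ^ (1 - 2 c - o(1))` time
`N ^ (1 + c)`.
-/

set_option autoImplicit false

namespace Pool.Agent.Results.MP_13bec0_lc.NondeterministicSlowHeads

open Pool.Agent.TH457.HT Pool.Agent.Q184.TS.SH

/-- Let `P` be a nondeterministic program with `k ≥ 1` two-way heads for words of `N (w + 1)` bits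
and with at most `2 ^ S` configurations.  If each list of `N` distinct integers of absolute value
at most `N ^ 3` in which no integer is the sum of two others is accepted by some computation of at
most `T` steps, and if no list in which one is the sum of two others is accepted by any computation,
then `n ^ 3 ≤ 26000 * k * (S + 1) * (w + 1) * (k * T + n) ^ 2` for `n = N (w + 1)`. -/
theorem result (N w k T S : ℕ) (P : HeadProg Bool (N * (w + 1)) k) (hk : 1 ≤ k)
    (hS : Fintype.card P.Q * (N * (w + 1)) ^ k ≤ 2 ^ S)
    (hacc : ∀ x : Fin N → ℤ, Function.Injective x → (∀ i, |x i| ≤ (N : ℤ) ^ 3) → ¬ HasSum x →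
      P.AcceptsIn T (zword N w x))
    (hsound : ∀ x : Fin N → ℤ, Function.Injective x → (∀ i, |x i| ≤ (N : ℤ) ^ 3) → HasSum x →
      ¬ P.Accepts (zword N w x)) :
    (N * (w + 1)) ^ 3 ≤ 26000 * (k * (S + 1) * (w + 1) * (k * T + N * (w + 1)) ^ 2) :=
  threeSum_nondet N w P T S hk hS hacc hsound

end Pool.Agent.Results.MP_13bec0_lc.NondeterministicSlowHeads
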