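import Mathlib
import Pool.Agent.Q184.TS.RF

/-!
# The 3SUM hypothesis: branching programs which test real formulas

The input consists of `2 n` distinct integers of absolute value at most `(2 n) ^ 3`; the question is
whether one of them is the sum of two others. The items of the input are the first `n` numbers and
the list of the other `n` numbers.

A real formula (`Fml`) is built from real constants, arbitrary real functions of one item, and
arbitrary real functions of `w` words of length `c log₂ (2 n)`, where each word is an arbitrary
function of one item, by sums, products, sign tests `pos` (with the values `0`, `1`), and gates `sym`
of any fan-in whose value is an arbitrary real function of the number of positive inputs. All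
intermediate results are real numbers of unbounded size and precision. So a formula may contain
threshold gates of unbounded fan-in with arbitrary real weights, comparisons of two numbers which
are computed by arithmetic formulas, and arbitrary symmetric gates, nested in any way. It accepts if
its value is positive. Its size is the number of leaves (constants are free) plus the number of
wires which lead to gates `sym`. In a branching program (`Program`) every inner node tests whether a
real formula accepts; its size is the number of inner nodes plus the sizes of all these formulas.

We show that random branching programs of size at most `s` with error probability at most `1 / 3` need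
`n ^ 2 ≤ 14000 c w ^ 2 s`, and random formulas of size at most `s` need `n ^ 2 ≤ 6000 c w ^ 2 s`.
For `w = 3`, `c = 4` the tests see, for instance, any three of the numbers.

Proof. By the coding of helper697 each of the first `n` numbers can ask for about `n log₂ n / 7` bits
of the list. The functions of this number which arise when the other items are fixed are counted
(Nechiporuk's method): between the `r` leaves which see the number there are `O (r)` places at which
other parts of the formula enter, the function of the value below such a place is affine or an affine
function of a threshold test, and the number of sign patterns is `n ^ O (r)` by Warren's theorem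
(the counting theorem of the starting file `Pool.Agent.Y638.RF.Core`, which was used there for the
equation `a + b + c = 0`).
-/

set_option autoImplicit false

namespace Pool.Agent.Results.MP_13bec0_lc.RealPrograms

open Pool.Agent.TH697.Form (IsProb)
open Pool.Agent.TH697.Row (ApproximatesOn)
open Pool.Agent.TH697.Form.ThreeSum (Item Valid threeSum)
open Pool.Agent.Y638.RF (Fml Program)

theorem result : ∀ n c w : ℕ, 1000 ≤ n → 1 ≤ c → 1 ≤ w →
    ∀ (Ω : Type) [Fintype Ω] (μ : Ω → ℝ), IsProb μ → ∀ s : ℕ,
      (∀ B : Ω → Program (Option (Fin n)) (Item n n) w ((2 * n) ^ c) s,
        ApproximatesOn μ (fun ω => (B ω).eval) (Valid n n) (threeSum n n) →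
        (n : ℝ) ^ 2 ≤ 14000 * c * w ^ 2 * s) ∧
      (∀ F : Ω → Fml (Option (Fin n)) (Item n n) w ((2 * n) ^ c),
        (∀ ω, (F ω).size ≤ s) →
        ApproximatesOn μ (fun ω => (F ω).accepts) (Valid n n) (threeSum n n) →
        (n : ℝ) ^ 2 ≤ 6000 * c * w ^ 2 * s) :=
  fun _ _ _ hn hc hw _ _ μ hμ s =>
    ⟨fun B hB => Pool.Agent.Q184.TS.RF.program_bound hn hc hw μ hμ s B hB,
      fun F hs hF => Pool.Agent.Q184.TS.RF.lower (by omega) hc hw μ hμ s F hs hF⟩

end Pool.Agent.Results.MP_13bec0_lc.RealPrograms
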