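import Pool.Agent.Q184.TS.SH

/-!
# 3SUM in the form `a + b = c`: randomized machines with slow heads

The list of `N` distinct integers of absolute value at most `N ^ 3` is given as a word of
`n = N (w + 1)` bits.  Randomized nonuniform programs with `k` two-way heads, which move by at most
one position in a step, with error probability at most `1 / 20000` on both sides, with at most
`2 ^ S` configurations and with at most `T` steps, which decide whether one of the integers is the
sum of two others, satisfy `(k T + n) ^ 2 * k * (S + 1) * (w + 1) ≥ n ^ 3 / (1.1 * 10 ^ 6)`.  So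
randomized Turing machines with several heads on the input tape need time `N ^ (3 / 2 - o(1))` for
3SUM if they use space `N ^ o(1)`, and time `N ^ (1 + c)` if they use space `N ^ (1 - 2 c - o(1))`.

Proof. The general theorem on blocks (`Pool.Agent.TH457.HT.Gen3`) says that such programs cannot
decide whether the `m` numbers `v_j < 2 M ^ 2`, `M = ⌊N / 3⌋`, given by the blocks of a word, are
distinct.  Put `Y = 4 M ^ 3` and `y_j = 2 M v_j + j < Y`.  Block `j` consists of
`3 Y + 3 M + y_j`, `2 Y + 3 M + y_j` and `Y + (j + 1)`; the remaining integers are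
`- (N ^ 3 - a)` with `a ≥ 3 m`.  If one integer is the sum of two others, then they are
`3 Y + 3 M + y_i`, `2 Y + 3 M + y_j` and `Y + t` with `y_i - y_j = t ≤ m`, which is possible iff
`v_i = v_j` for some `i ≠ j`.
-/

set_option autoImplicit false

namespace Pool.Agent.Results.MP_13bec0_lc.SlowHeads

open Pool.Agent.TH457.HT Pool.Agent.Q184.TS.SH

open Classical in
/-- Let `p`, `P` be a random program with `k ≥ 1` two-way heads for words of `N (w + 1)` bits and
with at most `2 ^ S` configurations.  If for each list of `N` distinct integers of absolute value at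
most `N ^ 3` the right answer to the question whether one of them is the sum of two others is given
within `T` steps with probability at least `1 - 1 / 20000`, then
`n ^ 3 ≤ 1100000 * k * (S + 1) * (w + 1) * (k * T + n) ^ 2` for `n = N (w + 1)`. -/
theorem result (N w k T S : ℕ) (Ω : Type) [Fintype Ω] (p : Ω → ℝ)
    (P : Ω → DetProg Bool (N * (w + 1)) k)
    (hp : ∀ ω, 0 ≤ p ω) (hp1 : ∑ ω, p ω = 1) (hk : 1 ≤ k)
    (hS : ∀ ω, Fintype.card (P ω).Q * (N * (w + 1)) ^ k ≤ 2 ^ S)
    (h : ∀ x : Fin N → ℤ, Function.Injective x → (∀ i, |x i| ≤ (N : ℤ) ^ 3) →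
      1 - 1 / 20000 ≤ prob p P T (zword N w x) (decide (HasSum x))) :
    (N * (w + 1)) ^ 3 ≤ 1100000 * (k * (S + 1) * (w + 1) * (k * T + N * (w + 1)) ^ 2) :=
  threeSum_rand N w p hp hp1 P T S hk hS h

end Pool.Agent.Results.MP_13bec0_lc.SlowHeads
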