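import Pool.Agent.Q329.UX.Model
import Pool.Agent.H560R2.Sum8

/-!
# 3SUM for circuits with unreliable negations needs `n ^ (2 - o(1))` gates

A set of numbers from `{0, ..., N}` is given by bits, as in the algorithm which solves 3SUM for such
sets with `N ^ (1 + o(1))` operations by the fast Fourier transform: for all numbers `x` and all tags
`j < K`, the bit of the position `(x, j)` tells whether `x` is in the set with the tag `j` (its name).
Only sets in which each number has at most one tag are considered; the tag has no meaning.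

The model: randomised circuits whose inputs are these bits and their negations, with gates that
compute arbitrary nondecreasing real functions of two arguments. All circuits with AND, OR and NOT
gates can be brought into this form by doubling their size. There is no bound on the depth. A
randomised circuit is a finite nonempty family of circuits from which one is chosen uniformly at
random.

Faults: each negated input (the information that `x` is not in the set with the tag `j`) is stuck at
`0`, independently with probability `1 / D`. The other inputs are reliable.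

Result: let `t < 2` and `b > 0`. For all large `n`, all `N ≥ n ^ (1 + b)`, all `D` and all
`K ≥ D (log (N + 1) + 4)` the following holds. If a randomised circuit accepts the sets of at most `n`
numbers that have a solution of `a + b = c` with probability at least `4 / 5` under faults, and the
sets of at most `n` numbers that have no solution with probability at most `1 / 4` without faults,
then one of its circuits has more than `n ^ t` gates.

So an algorithm that is faster than the quadratic one, like the Fourier transform for
`N = n ^ (1 + b)`, must rely on all negated inputs to be correct, although faults are rare (`D` may be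
large) and the circuit may repeat and combine its computations in any way.

The proof: the instance is hidden at random tags; the tags which other numbers would get are as good
as random faulty inputs (`Pool/Agent/Y630`), so all negated inputs that depend on the instance can be
replaced by `0`. For circuits without negations the average-case bound `sum_hard` of the starting
development `Pool/Agent/H560R2` is used.
-/

set_option autoImplicit false

namespace Pool.Agent.Results.MP_13bec0_lc.UnreliableNegations

open Pool.Agent.Q329.UX Finset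

/-- The positions: the number `x ≤ N` with the tag `j < K`. -/
abbrev Position (N K : ℕ) : Type := Fin (N + 1) × Fin K

/-- The set of the numbers which is given by the bits `z`. -/
def numbers {N K : ℕ} (z : Position N K → Bool) : Finset ℤ :=
  (univ.filter fun x : Fin (N + 1) => ∃ j, z (x, j) = true).image fun x : Fin (N + 1) =>
    ((x : ℕ) : ℤ)

/-- There are at most `n` numbers, and each number has at most one tag. -/
def Input {N K : ℕ} (n : ℕ) (z : Position N K → Bool) : Prop :=
  (numbers z).card ≤ n ∧ ∀ x j j', z (x, j) = true → z (x, j') = true → j = j'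

/-- `S` has three pairwise different elements `a, b, c` with `a + b = c`. -/
def HasSum (S : Finset ℤ) : Prop :=
  ∃ a ∈ S, ∃ b ∈ S, ∃ c ∈ S, a ≠ b ∧ a ≠ c ∧ b ≠ c ∧ a + b = c

/-- The family of circuits `C` decides whether a set of at most `n` numbers has a solution, in the
presence of faults with probability `1 / D`. -/
def Tolerates {N K : ℕ} {R : Type} (C : R → LiteralCircuit (Position N K)) (D n : ℕ) : Prop :=
  (∀ z, Input n z → HasSum (numbers z) → 4 / 5 ≤ faultyAcceptance C D z) ∧
    ∀ z, Input n z → ¬ HasSum (numbers z) → acceptance C z ≤ 1 / 4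

/-- Let `t < 2` and `b > 0`. For all large `n`, all `N ≥ n ^ (1 + b)`, `D ≥ 1` and
`K ≥ D (log (N + 1) + 4)`: if a finite nonempty family of circuits on literals with nondecreasing real
gates of fan-in at most two decides 3SUM for the sets of at most `n` numbers from `{0, ..., N}` in the
presence of faults with probability `1 / D`, then one of the circuits has more than `n ^ t` gates. -/
theorem result (t b : ℝ) (ht : t < 2) (hb : 0 < b) : ∃ n₀ : ℕ, ∀ n : ℕ, n₀ ≤ n →
    ∀ N : ℕ, (n : ℝ) ^ (1 + b) ≤ N → ∀ D : ℕ, 1 ≤ D → ∀ K : ℕ,
      D * (Real.log (N + 1) + 4) ≤ K →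
      ∀ (R : Type) [Finite R] [Nonempty R] (C : R → LiteralCircuit (Position N K)),
        Tolerates C D n → ∃ ρ, (n : ℝ) ^ t < (C ρ).s := by
  classical
  obtain ⟨t', ht'⟩ : ∃ t' : ℝ, t' = max t 0 := ⟨_, rfl⟩
  have ht0 : 0 ≤ t' := by rw [ht']; exact le_max_right _ _
  have ht2 : t' + 2 * 0 < 2 := by
    rw [mul_zero, add_zero, ht']
    exact max_lt ht (by norm_num)
  obtain ⟨a, ha, n1, hmain⟩ := Pool.Agent.H560R2.sum_hard 0 t' b le_rfl ht0 hb ht2
  obtain ⟨n2, hn2⟩ : ∃ n2 : ℕ, ∀ n : ℕ, n2 ≤ n → (n : ℝ) ^ (-a) < 1 / 2 := by
    have h1 := (tendsto_rpow_neg_atTop ha).comp tendsto_natCast_atTop_atTop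
    have h2 := h1.eventually (gt_mem_nhds (show (0 : ℝ) < 1 / 2 by norm_num))
    obtain ⟨n2, h3⟩ := Filter.eventually_atTop.mp h2
    exact ⟨n2, fun n hn => h3 n hn⟩
  refine ⟨max (max n1 n2) 1, fun n hn N hN D hD K hK R _ _ C hC => ?_⟩
  have hn1 : n1 ≤ n := ((le_max_left _ _).trans (le_max_left _ _)).trans hn
  have hn2' : n2 ≤ n := ((le_max_right _ _).trans (le_max_left _ _)).trans hn
  have hn3 : 1 ≤ n := (le_max_right _ _).trans hn
  have hnr : (1 : ℝ) ≤ n := by exact_mod_cast hn3
  let _ : Fintype R := Fintype.ofFinite R
  have hDR : (1 : ℝ) ≤ D := by exact_mod_cast hD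
  have hlog : 0 ≤ Real.log (N + 1) := Real.log_nonneg (by
    have : (0 : ℝ) ≤ N := Nat.cast_nonneg _
    linarith)
  have hK0 : 0 < K := by
    have h1 : (0 : ℝ) < K := lt_of_lt_of_le (by positivity) hK
    exact_mod_cast h1
  have : NeZero K := ⟨hK0.ne'⟩
  obtain ⟨Λ, iΛ, nΛ, yes, no, hyes, hno, hadv⟩ := hmain n hn1
  rw [add_zero] at hyes hno
  have hbad : (Fintype.card (Fin (N + 1)) : ℝ) * (1 - 1 / (D : ℝ)) ^ Fintype.card (Fin K) ≤
      1 / 40 := by
    rw [Fintype.card_fin, Fintype.card_fin]
    push_cast
    exact Pool.Agent.Y630.TG.places_bad (by omega) (by positivity) hK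
  -- the words of the hidden sets
  set enc : Finset ℤ → Fin (N + 1) → Bool := fun S x => decide (((x : ℕ) : ℤ) ∈ S) with henc
  have hnum : ∀ (S : Finset ℤ), (∀ z ∈ S, 0 ≤ z ∧ (z : ℝ) ≤ (n : ℝ) ^ (1 + b)) →
      ∀ τ : Fin (N + 1) → Fin K, numbers (Pool.Agent.Y630.TF.host
        (Function.Embedding.refl (Position N K)) (fun _ => false) τ (enc S)) = S := by
    intro S hS τ
    ext z
    unfold numbers
    rw [Finset.mem_image]
    constructor
    · rintro ⟨x, hx, rfl⟩
      obtain ⟨j, hj⟩ := (Finset.mem_filter.mp hx).2
      rw [Pool.Agent.Y630.TF.host_true] at hj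
      rcases hj with hj | ⟨x', h1, h2⟩
      · exact absurd hj (by simp)
      · have h3 : x' = x := congrArg Prod.fst h2
        rw [h3] at h1
        exact of_decide_eq_true h1
    · intro hz
      obtain ⟨h1, h2⟩ := hS z hz
      have h3 : (z.toNat : ℤ) = z := Int.toNat_of_nonneg h1
      have h4 : z.toNat < N + 1 := by
        have h5 : (z : ℝ) ≤ N := h2.trans hN
        have h6 : ((z.toNat : ℤ) : ℝ) ≤ N := by rw [h3]; exact h5
        have h7 : z.toNat ≤ N := by exact_mod_cast h6
        omega
      refine ⟨⟨z.toNat, h4⟩, Finset.mem_filter.mpr ⟨mem_univ _, τ ⟨z.toNat, h4⟩, ?_⟩, h3⟩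
      rw [Pool.Agent.Y630.TF.host_true]
      refine Or.inr ⟨⟨z.toNat, h4⟩, ?_, rfl⟩
      exact decide_eq_true (by rw [h3]; exact hz)
  have htag : ∀ (y : Fin (N + 1) → Bool) (τ : Fin (N + 1) → Fin K) x j j',
      Pool.Agent.Y630.TF.host (Function.Embedding.refl (Position N K)) (fun _ => false) τ y
        (x, j) = true →
      Pool.Agent.Y630.TF.host (Function.Embedding.refl (Position N K)) (fun _ => false) τ y
        (x, j') = true → j = j' := by
    intro y τ x j j' h1 h2
    rw [Pool.Agent.Y630.TF.host_true] at h1 h2
    rcases h1 with h1 | ⟨x1, -, h1⟩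
    · exact absurd h1 (by simp)
    rcases h2 with h2 | ⟨x2, -, h2⟩
    · exact absurd h2 (by simp)
    have e1 : x1 = x := congrArg Prod.fst h1
    have e2 : x2 = x := congrArg Prod.fst h2
    have e3 : τ x1 = j := congrArg Prod.snd h1
    have e4 : τ x2 = j' := congrArg Prod.snd h2
    rw [← e3, ← e4, e1, e2]
  obtain ⟨ρ, C', hT', hS', hgap⟩ := pair_fault (fun l => enc (yes l)) (fun l => enc (no l))
    (by omega : 0 < D) (Function.Embedding.refl (Position N K)) (fun _ => false) C hbad
    (fun l τ => by
      refine hC.1 _ ⟨?_, htag _ _⟩ ?_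
      · rw [hnum _ (hyes l).2.1]
        exact (hyes l).1
      · rw [hnum _ (hyes l).2.1]
        exact (hyes l).2.2)
    (fun l τ => by
      refine hC.2 _ ⟨?_, htag _ _⟩ ?_
      · rw [hnum _ (hno l).2.1]
        exact (hno l).1
      · rw [hnum _ (hno l).2.1]
        exact (hno l).2.2)
  refine ⟨ρ, ?_⟩
  by_contra hcon
  push Not at hcon
  have hsize : ((C'.S + ∑ i ∈ (∅ : Finset (Fin C'.S)), C'.wd i : ℕ) : ℝ) ≤ (n : ℝ) ^ t' := by
    rw [Finset.sum_empty, add_zero, hS']
    refine hcon.trans (Real.rpow_le_rpow_of_exponent_le hnr ?_)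
    rw [ht']
    exact le_max_left _ _
  have h1 := hadv C'.S ∅ C'.wd
    (fun i j => Sum.map (fun x : Fin (N + 1) => ((x : ℕ) : ℤ)) id (C'.a i j)) C'.op C'.θ
    (fun y => C'.val (fun x => y ((x : ℕ) : ℤ))) C'.o C'.τ
    (fun i j k hk => by
      refine C'.htop i j k ?_
      cases hc : C'.a i j with
      | inl x => rw [hc] at hk; exact absurd hk (by simp)
      | inr m =>
        rw [hc] at hk
        simpa using hk)
    (fun i _ => C'.hmon i (by rw [hT']; exact Finset.notMem_empty i))
    (fun i hi => absurd hi (Finset.notMem_empty i))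
    (fun y i => by
      rw [C'.hval]
      congr 1
      funext j
      cases C'.a i j with
      | inl x => rfl
      | inr m => rfl)
    hsize (by simp)
  have h2 := hn2 n hn2'
  have hΛ : (0 : ℝ) < Fintype.card Λ := by exact_mod_cast Fintype.card_pos
  have hc : ∀ S : Λ → Finset ℤ, (Nat.card {l // C'.acc (enc (S l))} : ℝ) =
      ((univ.filter (fun l : Λ => C'.τ ≤ C'.val
        (fun x : Fin (N + 1) => decide (((x : ℕ) : ℤ) ∈ S l)) C'.o)).card : ℝ) := by
    intro S
    rw [Nat.card_eq_fintype_card, Fintype.card_subtype]
    rfl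
  rw [hc, hc, Nat.card_eq_fintype_card] at hgap
  rw [div_add' _ _ _ hΛ.ne', div_le_div_iff_of_pos_right hΛ] at h1
  have h3 : (n : ℝ) ^ (-a) * Fintype.card Λ < 1 / 2 * Fintype.card Λ :=
    mul_lt_mul_of_pos_right h2 hΛ
  linarith

end Pool.Agent.Results.MP_13bec0_lc.UnreliableNegations
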